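import Pool.Agent.NH63.Rand5

/-!
The pointwise ergodic theorem fails almost surely along the random sequence with
`P (X n = 1) = log log n / n`, and the sequence is even strong sweeping out.  The same holds for
independent `0`-`1` valued `X n` with `c / n ≤ P (X n = 1) ≤ C log log n / n` for all large `n`.
-/

set_option autoImplicit false

namespace Pool.Agent.Results.MP_992633_an.LogLogSweepingOut

open MeasureTheory ProbabilityTheory Filter Topology

/-- The random sequence: `seqOf X ω n` is the least `k` with `X 1 ω + ... + X k ω = n`. -/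
noncomputable def seqOf {Ω : Type*} (X : ℕ → Ω → ℕ) (ω : Ω) (n : ℕ) : ℕ :=
  sInf {k : ℕ | ∑ i ∈ Finset.Icc 1 k, X i ω = n}

/-- The pointwise ergodic theorem along `a 1, a 2, ...` for bounded functions: in every invertible
measure preserving system on a standard Borel probability space and for every bounded measurable
`f`, the averages along `a` converge almost everywhere to the limit of the usual averages. -/
def PointwiseGood (a : ℕ → ℕ) : Prop :=
  ∀ (Y : Type) [MeasurableSpace Y] [StandardBorelSpace Y] (μ : Measure Y)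
    [IsProbabilityMeasure μ] (T : Y ≃ᵐ Y), MeasurePreserving T μ μ →
    ∀ f : Y → ℝ, Measurable f → (∃ C : ℝ, ∀ y, |f y| ≤ C) →
    ∀ᵐ y ∂μ, ∃ l : ℝ,
      Tendsto (fun N : ℕ => (1 / (N : ℝ)) * ∑ n ∈ Finset.Icc 1 N, f (T^[a n] y)) atTop (𝓝 l) ∧
      Tendsto (fun N : ℕ => (1 / (N : ℝ)) * ∑ n ∈ Finset.Icc 1 N, f (T^[n] y)) atTop (𝓝 l)

/-- The sequence `a 1, a 2, ...` is strong sweeping out: in every aperiodic system `(Y, μ, T)` (a
probability space whose measurable sets contain a countable family separating the points, for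
instance a standard Borel space, with a measure preserving, not necessarily invertible, map `T`
such that `T^k y ≠ y` almost everywhere for every `k ≥ 1`) and for every `ε > 0` there is a
measurable `E` with `μ E < ε` whose averages `(1/N) ∑_{n=1}^N 1_E (T^{a n} y)` have upper limit `1`
and lower limit `0` for almost every `y`. -/
def StrongSweepingOut (a : ℕ → ℕ) : Prop :=
  ∀ (Y : Type) [MeasurableSpace Y] [MeasurableSpace.CountablySeparated Y] (μ : Measure Y)
    [IsProbabilityMeasure μ] (T : Y → Y), MeasurePreserving T μ μ →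
    (∀ k : ℕ, 1 ≤ k → μ {y | T^[k] y = y} = 0) →
    ∀ ε : ℝ, 0 < ε → ∃ E : Set Y, MeasurableSet E ∧ μ E < ENNReal.ofReal ε ∧
      ∀ᵐ y ∂μ,
        limsup (fun N : ℕ => (1 / (N : ℝ)) *
          ∑ n ∈ Finset.Icc 1 N, E.indicator (fun _ => (1 : ℝ)) (T^[a n] y)) atTop = 1 ∧
        liminf (fun N : ℕ => (1 / (N : ℝ)) *
          ∑ n ∈ Finset.Icc 1 N, E.indicator (fun _ => (1 : ℝ)) (T^[a n] y)) atTop = 0

/-- Strong sweeping out sequences are not good: take an irrational rotation. -/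
theorem not_good (a : ℕ → ℕ) (h : StrongSweepingOut a) : ¬ PointwiseGood a := by
  intro hg
  haveI hprob : IsProbabilityMeasure (volume : Measure (AddCircle (1 : ℝ))) :=
    ⟨by rw [AddCircle.measure_univ]; simp⟩
  set r : AddCircle (1 : ℝ) := ((Real.sqrt 2 : ℝ) : AddCircle (1 : ℝ)) with hr
  set T : AddCircle (1 : ℝ) ≃ᵐ AddCircle (1 : ℝ) := MeasurableEquiv.addRight r with hT
  have hTp : MeasurePreserving T (volume : Measure (AddCircle (1 : ℝ))) volume :=
    measurePreserving_add_right volume r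
  have hiter : ∀ (k : ℕ) (y : AddCircle (1 : ℝ)), T^[k] y = y + k • r := by
    intro k
    induction k with
    | zero => intro y; simp
    | succ k ih =>
      intro y
      rw [Function.iterate_succ_apply', ih]
      change y + k • r + r = _
      rw [succ_nsmul, add_assoc]
  have hap : ∀ k : ℕ, 1 ≤ k →
      (volume : Measure (AddCircle (1 : ℝ))) {y | T^[k] y = y} = 0 := by
    intro k hk
    have : {y : AddCircle (1 : ℝ) | T^[k] y = y} = ∅ := by
      rw [Set.eq_empty_iff_forall_notMem]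
      intro y hy
      rw [Set.mem_setOf_eq, hiter, add_eq_left, hr, ← AddCircle.coe_nsmul,
        AddCircle.coe_eq_zero_iff] at hy
      obtain ⟨m, hm⟩ := hy
      rw [zsmul_eq_mul, mul_one, nsmul_eq_mul] at hm
      have hk0 : (k : ℝ) ≠ 0 := by
        have : 0 < k := hk
        positivity
      have h2 : Real.sqrt 2 = ((m : ℚ) / (k : ℚ) : ℚ) := by
        push_cast
        rw [eq_div_iff hk0, mul_comm]
        exact hm.symm
      exact irrational_sqrt_two ⟨_, h2.symm⟩
    rw [this]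
    exact measure_empty
  obtain ⟨E, hE, _, hlim⟩ := h (AddCircle (1 : ℝ)) volume T hTp hap 1 one_pos
  have hgood := hg (AddCircle (1 : ℝ)) volume T hTp (E.indicator (fun _ => (1 : ℝ)))
    (measurable_const.indicator hE) ⟨1, fun y => by
      by_cases hy : y ∈ E
      · rw [Set.indicator_of_mem hy]; simp
      · rw [Set.indicator_of_notMem hy]; simp⟩
  obtain ⟨y, hy1, l, hy2, _⟩ := (hlim.and hgood).exists
  have e1 := hy2.limsup_eq
  have e2 := hy2.liminf_eq
  rw [hy1.1] at e1
  rw [hy1.2] at e2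
  rw [← e2] at e1
  exact one_ne_zero e1

/-- The random sequence is strong sweeping out almost surely, for all densities between `c / n`
and `C log log n / n`. -/
theorem main {Ω : Type*} [MeasurableSpace Ω] (P : Measure Ω) [IsProbabilityMeasure P]
    (X : ℕ → Ω → ℕ) (hX : ∀ n, 1 ≤ n → Measurable (X n))
    (h01 : ∀ n, 1 ≤ n → ∀ ω, X n ω = 0 ∨ X n ω = 1)
    (hind : iIndepFun (fun n : ℕ => X (n + 1)) P) (σ : ℕ → ℝ)
    (hσ : ∀ n, 1 ≤ n → P {ω | X n ω = 1} = ENNReal.ofReal (σ n)) (c C : ℝ) (hc : 0 < c)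
    (n₀ : ℕ) (hlow : ∀ n : ℕ, n₀ ≤ n → c / n ≤ σ n)
    (hup : ∀ n : ℕ, n₀ ≤ n → σ n ≤ C * (Real.log (Real.log n) / n)) :
    ∀ᵐ ω ∂P, (∀ n, 1 ≤ n → ∃ k, ∑ i ∈ Finset.Icc 1 k, X i ω = n) ∧
      StrongSweepingOut (seqOf X ω) := by
  classical
  set Z : ℕ → Ω → ℝ := fun n ω => (X (n + 1) ω : ℝ) with hZ
  have hZm : ∀ k, Measurable (Z k) := fun k =>
    measurable_from_top.comp (hX (k + 1) (by omega))
  have hZind : iIndepFun Z P :=
    hind.comp (fun _ => fun m : ℕ => (m : ℝ)) (fun _ => measurable_from_top)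
  have hZ01 : ∀ k ω, Z k ω = 0 ∨ Z k ω = 1 := by
    intro k ω
    rcases h01 (k + 1) (by omega) ω with h | h
    · left; simp [hZ, h]
    · right; simp [hZ, h]
  set s : ℕ → ℝ := fun k => ∫ ω, Z k ω ∂P with hs
  have hsσ : ∀ k, 0 ≤ σ (k + 1) → s k = σ (k + 1) := by
    intro k hk
    have hset : MeasurableSet {ω | X (k + 1) ω = 1} :=
      hX (k + 1) (by omega) (measurableSet_singleton 1)
    have e : Z k = Set.indicator {ω | X (k + 1) ω = 1} (fun _ => (1 : ℝ)) := by
      funext ω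
      by_cases h : X (k + 1) ω = 1
      · rw [Set.indicator_of_mem (by exact h)]
        simp [hZ, h]
      · rw [Set.indicator_of_notMem (by exact h)]
        rcases h01 (k + 1) (by omega) ω with h' | h'
        · simp [hZ, h']
        · exact absurd h' h
    rw [hs]
    simp only
    rw [e, integral_indicator hset, setIntegral_const, smul_eq_mul, mul_one, Measure.real,
      hσ (k + 1) (by omega), ENNReal.toReal_ofReal hk]
  have hσpos : ∀ k, n₀ ≤ k → 0 ≤ σ (k + 1) := by
    intro k hk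
    refine le_trans ?_ (hlow (k + 1) (by omega))
    positivity
  have hae := Pool.Agent.NH63.Rand.almost_sure (P := P) hZm hZind hZ01 (s := s)
    (fun _ => rfl) c C hc n₀
    (fun k hk => by
      rw [hsσ k (hσpos k hk)]
      have := hlow (k + 1) (by omega)
      push_cast at this
      exact this)
    (fun k hk => by
      rw [hsσ k (hσpos k hk)]
      have := hup (k + 1) (by omega)
      push_cast at this
      rw [← mul_div_assoc] at this
      exact this)
  filter_upwards [hae] with ω hω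
  obtain ⟨hinf, hcyc⟩ := hω
  set p : ℕ → Prop := Pool.Agent.NH63.Rand.Suc Z ω with hp
  have hsum : ∀ k, ∑ i ∈ Finset.Icc 1 k, X i ω = Nat.count p (k + 1) := by
    intro k
    have h1 := Pool.Agent.NH63.Rand.sum_Z_eq hZ01 ω k
    have h2 : (∑ i ∈ Finset.Icc 1 k, X i ω : ℕ) = ∑ i ∈ Finset.range k, X (i + 1) ω := by
      rw [Finset.range_eq_Ico, Finset.sum_Ico_add' (fun i => X i ω) 0 k 1]
      refine Finset.sum_congr ?_ fun _ _ => rfl
      ext i
      simp only [Finset.mem_Icc, Finset.mem_Ico]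
      omega
    rw [h2, Nat.count_eq_card_filter_range]
    have h3 : ((∑ i ∈ Finset.range k, X (i + 1) ω : ℕ) : ℝ) =
        ((((Finset.range (k + 1)).filter p).card : ℕ) : ℝ) := by
      rw [← h1]
      push_cast
      rfl
    exact_mod_cast h3
  have hcount : ∀ n, 1 ≤ n → Nat.count p (Nat.nth p (n - 1) + 1) = n := by
    intro n hn
    rw [Nat.count_succ, Nat.count_nth_of_infinite hinf,
      if_pos (Nat.nth_mem_of_infinite hinf _)]
    omega
  have hseq : ∀ n, 1 ≤ n → seqOf X ω n = Nat.nth p (n - 1) := by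
    intro n hn
    unfold seqOf
    apply le_antisymm
    · apply Nat.sInf_le
      rw [Set.mem_setOf_eq, hsum]
      exact hcount n hn
    · apply le_csInf
      · refine ⟨Nat.nth p (n - 1), ?_⟩
        rw [Set.mem_setOf_eq, hsum]
        exact hcount n hn
      · intro k hk
        rw [Set.mem_setOf_eq, hsum] at hk
        by_contra hcon
        push Not at hcon
        have h1 : Nat.count p (k + 1) ≤ Nat.count p (Nat.nth p (n - 1)) :=
          Nat.count_monotone p hcon
        rw [Nat.count_nth_of_infinite hinf, hk] at h1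
        omega
  refine ⟨fun n hn => ⟨Nat.nth p (n - 1), by rw [hsum]; exact hcount n hn⟩, ?_⟩
  intro Y _ _ μ _ T hT hap ε hε
  obtain ⟨E, hE, hμE, hlim⟩ := Y249.BG.sso μ T hT hap _ hcyc (ENNReal.ofReal ε)
    (ENNReal.ofReal_pos.2 hε)
  refine ⟨E, hE, hμE, ?_⟩
  filter_upwards [hlim] with y hy
  have e : Y249.BG.avg (fun n => Nat.nth p (n - 1)) T E y = fun N : ℕ => (1 / (N : ℝ)) *
      ∑ n ∈ Finset.Icc 1 N, E.indicator (fun _ => (1 : ℝ)) (T^[seqOf X ω n] y) := by
    funext N
    unfold Y249.BG.avg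
    congr 1
    refine Finset.sum_congr rfl fun n hn => ?_
    rw [hseq n (Finset.mem_Icc.1 hn).1]
  rw [e] at hy
  exact hy

/-- Let `X 1, X 2, ...` be independent `{0,1}`-valued random variables with `P (X n = 1) = σ n`.
If `σ n = log log n / n` for all large `n`, then almost surely the sequence `a n ω` (the least `k`
with `X 1 ω + ... + X k ω = n`) does not satisfy the pointwise ergodic theorem for bounded
functions.  More generally, if `c / n ≤ σ n ≤ C log log n / n` for all large `n` with constants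
`c > 0` and `C`, then almost surely the sequence is well defined and strong sweeping out, and the
pointwise ergodic theorem fails along it. -/
theorem result :
    (∀ {Ω : Type} [MeasurableSpace Ω] (P : Measure Ω) [IsProbabilityMeasure P]
      (X : ℕ → Ω → ℕ), (∀ n, 1 ≤ n → Measurable (X n)) →
      (∀ n, 1 ≤ n → ∀ ω, X n ω = 0 ∨ X n ω = 1) →
      iIndepFun (fun n : ℕ => X (n + 1)) P → ∀ σ : ℕ → ℝ,
      (∀ n, 1 ≤ n → P {ω | X n ω = 1} = ENNReal.ofReal (σ n)) →
      (∃ n₀ : ℕ, ∀ n : ℕ, n₀ ≤ n → σ n = Real.log (Real.log n) / n) →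
      ∀ᵐ ω ∂P, (∀ n, 1 ≤ n → ∃ k, ∑ i ∈ Finset.Icc 1 k, X i ω = n) ∧
        ¬ PointwiseGood (seqOf X ω)) ∧
    (∀ {Ω : Type} [MeasurableSpace Ω] (P : Measure Ω) [IsProbabilityMeasure P]
      (X : ℕ → Ω → ℕ), (∀ n, 1 ≤ n → Measurable (X n)) →
      (∀ n, 1 ≤ n → ∀ ω, X n ω = 0 ∨ X n ω = 1) →
      iIndepFun (fun n : ℕ => X (n + 1)) P → ∀ σ : ℕ → ℝ,
      (∀ n, 1 ≤ n → P {ω | X n ω = 1} = ENNReal.ofReal (σ n)) → ∀ c C : ℝ, 0 < c →
      (∃ n₀ : ℕ, ∀ n : ℕ, n₀ ≤ n → c / n ≤ σ n ∧
        σ n ≤ C * (Real.log (Real.log n) / n)) →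
      ∀ᵐ ω ∂P, (∀ n, 1 ≤ n → ∃ k, ∑ i ∈ Finset.Icc 1 k, X i ω = n) ∧
        StrongSweepingOut (seqOf X ω) ∧ ¬ PointwiseGood (seqOf X ω)) := by
  have hgen : ∀ {Ω : Type} [MeasurableSpace Ω] (P : Measure Ω) [IsProbabilityMeasure P]
      (X : ℕ → Ω → ℕ), (∀ n, 1 ≤ n → Measurable (X n)) →
      (∀ n, 1 ≤ n → ∀ ω, X n ω = 0 ∨ X n ω = 1) →
      iIndepFun (fun n : ℕ => X (n + 1)) P → ∀ σ : ℕ → ℝ,
      (∀ n, 1 ≤ n → P {ω | X n ω = 1} = ENNReal.ofReal (σ n)) → ∀ c C : ℝ, 0 < c →
      (∃ n₀ : ℕ, ∀ n : ℕ, n₀ ≤ n → c / n ≤ σ n ∧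
        σ n ≤ C * (Real.log (Real.log n) / n)) →
      ∀ᵐ ω ∂P, (∀ n, 1 ≤ n → ∃ k, ∑ i ∈ Finset.Icc 1 k, X i ω = n) ∧
        StrongSweepingOut (seqOf X ω) ∧ ¬ PointwiseGood (seqOf X ω) := by
    intro Ω _ P _ X hX h01 hind σ hσ c C hc ⟨n₀, hn₀⟩
    filter_upwards [main P X hX h01 hind σ hσ c C hc n₀ (fun n hn => (hn₀ n hn).1)
      (fun n hn => (hn₀ n hn).2)] with ω hω
    exact ⟨hω.1, hω.2, not_good _ hω.2⟩
  refine ⟨?_, hgen⟩
  intro Ω _ P _ X hX h01 hind σ hσ ⟨n₀, hn₀⟩
  obtain ⟨n₁, hn₁⟩ := eventually_atTop.1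
    (((Real.tendsto_log_atTop.comp (Real.tendsto_log_atTop.comp
      tendsto_natCast_atTop_atTop)).eventually_ge_atTop (1 : ℝ)))
  filter_upwards [hgen P X hX h01 hind σ hσ 1 1 one_pos ⟨max n₀ n₁, fun n hn => by
    rw [hn₀ n ((le_max_left _ _).trans hn), one_mul]
    refine ⟨?_, le_rfl⟩
    have h1 : (1 : ℝ) ≤ Real.log (Real.log n) := hn₁ n ((le_max_right _ _).trans hn)
    gcongr⟩] with ω hω
  exact ⟨hω.1, hω.2.2⟩

end Pool.Agent.Results.MP_992633_an.LogLogSweepingOut
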